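import Pool.Agent.R822.SuitB

/-!
MP_1d7995: there is a topological group with an `ω^ω`-base and without a suitable set.
-/

namespace Pool.Agent.Results.MP_1d7995_gt.NoSuitable

open Set Topology

/-- `S` is a suitable set for the topological group `G`: the subspace `S` is discrete, `S ∪ {e}`
is closed in `G`, and the subgroup generated by `S` is dense in `G`. -/
def IsSuitable {G : Type} [Group G] [TopologicalSpace G] (S : Set G) : Prop :=
  DiscreteTopology S ∧ IsClosed (S ∪ {1}) ∧ Dense (Subgroup.closure S : Set G)

/-- `X` has an `ω^ω`-base: every point `x` has a neighbourhood base indexed by the functions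
`ℕ → ℕ`, monotone for the pointwise order. -/
def HasOmegaOmegaBase (X : Type) [TopologicalSpace X] : Prop :=
  ∀ x : X, ∃ V : (ℕ → ℕ) → Set X, (∀ a b, a ≤ b → V b ⊆ V a) ∧
    (𝓝 x).HasBasis (fun _ => True) V

/-- There is a commutative Tychonoff topological group with an `ω^ω`-base, in which the open
subgroups form a neighbourhood base at the identity, whose points are separated by continuous
homomorphisms into the circle group (so it is MAP), and which has no suitable set. -/
theorem result :
    ∃ (G : Type) (_ : CommGroup G) (_ : TopologicalSpace G),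
      IsTopologicalGroup G ∧ T35Space G ∧ HasOmegaOmegaBase G ∧ NonarchimedeanGroup G ∧
      (∀ x : G, x ≠ 1 → ∃ χ : G →* Circle, Continuous χ ∧ χ x ≠ 1) ∧
      ¬ ∃ S : Set G, IsSuitable S := by
  have hI := Pool.Agent.R822.Suit.good_J
  have := hI.noMax
  have := hI.nonempty
  refine ⟨Multiplicative (Pool.Agent.R822.Suit.HH Pool.Agent.R822.Suit.J), inferInstance,
    inferInstance, inferInstance, ?_, ?_, ?_, ?_, ?_⟩
  · exact inferInstanceAs (T35Space (Pool.Agent.R822.Suit.HH Pool.Agent.R822.Suit.J))
  · exact Pool.Agent.R822.Suit.base_J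
  · exact Pool.Agent.R822.Suit.nonarch
  · exact Pool.Agent.R822.Suit.map_J
  · rintro ⟨S, hS⟩
    exact Pool.Agent.R822.Suit.no_suitable_mul hI S hS

end Pool.Agent.Results.MP_1d7995_gt.NoSuitable
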